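import Mathlib

/-!
A set of positive integers which meets `[T, C T] ∪ [T², C T²]` for all `T` has at least `c log x`
elements up to `x`.
-/

namespace Pool.Agent.Lib_helper3.CUBL

theorem count_nat {S : ℕ → Prop} [DecidablePred S] {C : ℕ}
    (hS : ∀ T : ℕ, 1 ≤ T → ∃ n : ℕ, S n ∧ ((T ≤ n ∧ n ≤ C * T) ∨ (T ^ 2 ≤ n ∧ n ≤ C * T ^ 2)))
    (x : ℕ) (hx : 1 ≤ x) :
    Nat.log (C + 2) x ≤ 4 * ((Finset.Icc 1 x).filter S).card + 1 := by
  obtain ⟨K, hK⟩ : ∃ K, K = C + 2 := ⟨_, rfl⟩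
  rw [← hK]
  have hK2 : 1 < K := by omega
  choose f hf1 hf2 using fun j : ℕ => hS (K ^ j) (Nat.one_le_pow _ _ (by omega))
  obtain ⟨L, hL⟩ : ∃ L, L = Nat.log K x := ⟨_, rfl⟩
  -- sizes of `f j`
  have lg : ∀ (n i : ℕ), K ^ i ≤ n → n ≤ C * K ^ i → Nat.log K n = i := by
    intro n i h1 h2
    apply Nat.log_eq_of_pow_le_of_lt_pow h1
    refine h2.trans_lt ?_
    rw [pow_succ, mul_comm]
    exact (Nat.mul_lt_mul_left (Nat.pow_pos (by omega))).2 (by omega)
  have hlog : ∀ j, Nat.log K (f j) = j ∨ Nat.log K (f j) = 2 * j := by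
    intro j
    rcases hf2 j with ⟨h1, h2⟩ | ⟨h1, h2⟩
    · exact Or.inl (lg _ _ h1 h2)
    · right
      rw [← pow_mul, mul_comm j 2] at h1 h2
      exact lg _ _ h1 h2
  have hpos : ∀ j, 1 ≤ f j := by
    intro j
    rcases hf2 j with ⟨h1, -⟩ | ⟨h1, -⟩
    · exact (Nat.one_le_pow _ _ (by omega)).trans h1
    · exact (Nat.one_le_pow _ _ (Nat.pow_pos (by omega))).trans h1
  have hle : ∀ j, 2 * j + 1 ≤ L → f j ≤ x := by
    intro j hj
    have h1 : K ^ (2 * j + 1) ≤ x := by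
      refine (Nat.pow_le_pow_right (by omega) hj).trans ?_
      rw [hL]
      exact Nat.pow_log_le_self K (by omega)
    refine le_trans ?_ h1
    rcases hf2 j with ⟨-, h2⟩ | ⟨-, h2⟩
    · refine h2.trans ?_
      calc C * K ^ j ≤ K * K ^ j := Nat.mul_le_mul_right _ (by omega)
        _ = K ^ (j + 1) := by rw [pow_succ]; ring
        _ ≤ K ^ (2 * j + 1) := Nat.pow_le_pow_right (by omega) (by omega)
    · refine h2.trans ?_
      calc C * (K ^ j) ^ 2 ≤ K * (K ^ j) ^ 2 := Nat.mul_le_mul_right _ (by omega)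
        _ = K ^ (2 * j + 1) := by rw [pow_succ K (2 * j), ← pow_mul, mul_comm j 2]; ring
  have key := Finset.card_le_mul_card_image_of_maps_to (s := Finset.range (L / 2))
    (t := (Finset.Icc 1 x).filter S) (f := f) (by
      intro j hj
      rw [Finset.mem_range] at hj
      rw [Finset.mem_filter, Finset.mem_Icc]
      exact ⟨⟨hpos j, hle j (by omega)⟩, hf1 j⟩) 2 (by
      intro b _
      have : (Finset.range (L / 2)).filter (fun j => f j = b) ⊆
          {Nat.log K b, Nat.log K b / 2} := by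
        intro j hj
        rw [Finset.mem_filter] at hj
        rw [Finset.mem_insert, Finset.mem_singleton]
        rcases hlog j with h | h
        · left; rw [← hj.2]; exact h.symm
        · right; rw [← hj.2, h]; omega
      refine (Finset.card_le_card this).trans ?_
      exact Finset.card_le_two)
  rw [Finset.card_range] at key
  rw [← hL]
  omega

theorem count_real {S : ℕ → Prop} [DecidablePred S] {C : ℕ}
    (hS : ∀ T : ℕ, 1 ≤ T → ∃ n : ℕ, S n ∧ ((T ≤ n ∧ n ≤ C * T) ∨ (T ^ 2 ≤ n ∧ n ≤ C * T ^ 2)))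
    (x : ℕ) (hx : 1 ≤ x) :
    Real.log x / (4 * Real.log (C + 2)) - 1 ≤ (((Finset.Icc 1 x).filter S).card : ℝ) := by
  have h1 := count_nat hS x hx
  have hlt : x < (C + 2) ^ (Nat.log (C + 2) x + 1) := Nat.lt_pow_succ_log_self (by omega) x
  have hC : (1 : ℝ) < C + 2 := by
    have : (0 : ℝ) ≤ C := Nat.cast_nonneg C
    linarith
  have hlC : 0 < Real.log ((C : ℝ) + 2) := Real.log_pos hC
  have h2 : Real.log x ≤ ((Nat.log (C + 2) x : ℕ) + 1 : ℝ) * Real.log ((C : ℝ) + 2) := by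
    have hx0 : (0 : ℝ) < x := by exact_mod_cast hx
    have h3 : (x : ℝ) ≤ ((C : ℝ) + 2) ^ (Nat.log (C + 2) x + 1) := by exact_mod_cast hlt.le
    have h4 := Real.log_le_log hx0 h3
    rw [Real.log_pow] at h4
    push_cast at h4
    exact h4
  have h5 : ((Nat.log (C + 2) x : ℕ) : ℝ) ≤ 4 * (((Finset.Icc 1 x).filter S).card : ℝ) + 1 := by
    exact_mod_cast h1
  have h6 : Real.log x / (4 * Real.log (C + 2)) ≤
      ((Nat.log (C + 2) x : ℕ) + 1 : ℝ) / 4 := by
    rw [div_le_div_iff₀ (by positivity) (by norm_num)]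
    nlinarith
  linarith

end Pool.Agent.Lib_helper3.CUBL
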