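import Mathlib
import Pool.Agent.Lib_helper11.CUB.Chain

/-!
Both signs among six arguments, two of them of the size of the square of the others, at every scale.
-/

namespace Pool.Agent.Lib_helper3.CUBL

open Pool.Agent.Lib_helper11.CUB

variable {K : Type*} [Field K] [NumberField K]

/-- The two arguments in the quadratic relation at `n`. -/
theorem stepQ (h3 : Module.finrank ℚ K = 3) {α β : K} (hI : Ind α β) {a y z : ℚ} (ha : 0 < a)
    (e : α ^ 2 = a * β + y * α + z) {D : ℕ} (hD : 1 ≤ D) :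
    ∃ D' : ℕ, 1 ≤ D' ∧ D ∣ D' ∧ ∃ C : ℚ, 1 ≤ C ∧ ∀ T n : ℚ, 1 ≤ T → (D : ℚ) * n ∈ ZZ →
      C * T ≤ n → ∃ n1 n2 : ℚ, (D' : ℚ) * n1 ∈ ZZ ∧ (D' : ℚ) * n2 ∈ ZZ ∧
        (T ≤ n1 ∧ n1 ≤ C * n) ∧ (T ^ 2 ≤ n2 ∧ n2 ≤ C * n ^ 2) ∧
        ∀ h : ℕ → ℤ, CM h → G h (-α) n = H h a * (G h α n1 * G h β n2) := by
  obtain ⟨D2, hD2, hl⟩ := common_den [y, y / a, z / a, 1 / a]
  obtain ⟨M, hM⟩ : ∃ M : ℚ, M = 1 + |y| + |z| := ⟨_, rfl⟩
  have hy := abs_nonneg y
  have hz := abs_nonneg z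
  have hM1 : 1 ≤ M := by linarith
  have hM0 : 0 < M := by linarith
  have hia : 0 < 1 / a := by positivity
  obtain ⟨C, hC⟩ : ∃ C : ℚ, C = 2 * M * (1 + a + 1 / a) := ⟨_, rfl⟩
  have hC1 : 2 * M ≤ C := by
    rw [hC]; have : 0 ≤ 2 * M * (a + 1 / a) := by positivity
    linarith
  have hC2 : 2 * M * a ≤ C := by
    rw [hC]; have : 0 ≤ 2 * M * (1 + 1 / a) := by positivity
    linarith
  have hC3 : M / a ≤ C := by
    rw [hC]
    have h1 : M / a = M * (1 / a) := by ring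
    have : 0 ≤ M * (2 * (1 + a) + 1 / a) := by positivity
    rw [h1]; linarith
  have hC4 : 2 * a ≤ C := by
    have : 2 * 1 * a ≤ 2 * M * a := by
      apply mul_le_mul_of_nonneg_right _ ha.le; linarith
    linarith
  have hC0 : 2 ≤ C := by linarith
  refine ⟨D * D * D2, Nat.mul_pos (Nat.mul_pos hD hD) hD2, ⟨D * D2, by ring⟩, C, by linarith, ?_⟩
  intro T n hT hn h1
  have l1 := hl y (by simp)
  have l2 := hl (y / a) (by simp)
  have l3 := hl (z / a) (by simp)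
  have l4 := hl (1 / a) (by simp)
  have hDD : ((D : ℤ) : ℚ) ∈ ZZ := int_mem _
  have hDD2 : ((D2 : ℤ) : ℚ) ∈ ZZ := int_mem _
  rw [Int.cast_natCast] at hDD hDD2
  have m1 : ((D * D * D2 : ℕ) : ℚ) * (n + y) ∈ ZZ := by
    have : ((D * D * D2 : ℕ) : ℚ) * (n + y) = D * D2 * (D * n) + D * D * (D2 * y) := by
      push_cast; ring
    rw [this]
    exact add_mem (mul_mem (mul_mem hDD hDD2) hn) (mul_mem (mul_mem hDD hDD) l1)
  have m2 : ((D * D * D2 : ℕ) : ℚ) * ((n ^ 2 + y * n - z) / a) ∈ ZZ := by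
    have : ((D * D * D2 : ℕ) : ℚ) * ((n ^ 2 + y * n - z) / a) =
        (D2 * (1 / a)) * (D * n) ^ 2 + D * (D2 * (y / a)) * (D * n) - D * D * (D2 * (z / a)) := by
      push_cast; ring
    rw [this]
    exact sub_mem (add_mem (mul_mem l4 (pow_mem hn 2)) (mul_mem (mul_mem hDD l2) hn))
      (mul_mem (mul_mem hDD hDD) l3)
  have hn1 : 2 * M * T ≤ n := by
    have : 2 * M * T ≤ C * T := mul_le_mul_of_nonneg_right hC1 (by linarith)
    linarith
  have hnM : 2 * M ≤ n := by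
    have : 2 * M * 1 ≤ 2 * M * T := mul_le_mul_of_nonneg_left hT (by linarith)
    linarith
  have hn0 : 1 ≤ n := by linarith
  have hnn : n ≤ n ^ 2 := by nlinarith
  have y1 := neg_abs_le y
  have y2 := le_abs_self y
  have z1 := neg_abs_le z
  have z2 := le_abs_self z
  have yn1 : -|y| * n ≤ y * n := mul_le_mul_of_nonneg_right y1 (by linarith)
  have yn2 : y * n ≤ |y| * n := mul_le_mul_of_nonneg_right y2 (by linarith)
  have zn : |z| ≤ |z| * n := by nlinarith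
  have hT0 : 0 ≤ T - 1 := by linarith
  refine ⟨n + y, (n ^ 2 + y * n - z) / a, m1, m2, ⟨?_, ?_⟩, ⟨?_, ?_⟩, ?_⟩
  · have : T + |y| ≤ 2 * M * T := by
      rw [hM]; nlinarith [mul_nonneg hy hT0, mul_nonneg hz (show 0 ≤ T by linarith)]
    linarith
  · have h2 : n + y ≤ (1 + |y|) * n := by nlinarith
    have h3 : (1 + |y|) * n ≤ C * n := by
      apply mul_le_mul_of_nonneg_right _ (by linarith)
      rw [hM] at hC1
      linarith
    linarith
  · rw [le_div_iff₀ ha]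
    have h4 : (M - 1) * n ≤ n / 2 * n := mul_le_mul_of_nonneg_right (by linarith) (by linarith)
    have h8 : (M - 1) * n = |y| * n + |z| * n := by rw [hM]; ring
    have h9 : T ^ 2 * a ≤ n ^ 2 / 2 := by
      have g1 : 2 * T ≤ n := by
        have : 2 * T ≤ C * T := mul_le_mul_of_nonneg_right hC0 (by linarith)
        linarith
      have g2 : 2 * a * T ≤ n := by
        have : 2 * a * T ≤ C * T := mul_le_mul_of_nonneg_right hC4 (by linarith)
        linarith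
      have g3 : (2 * T) * (2 * a * T) ≤ n * n :=
        mul_le_mul g1 g2 (by positivity) (by linarith)
      nlinarith
    nlinarith
  · have h4 : (n ^ 2 + y * n - z) / a ≤ M * n ^ 2 / a := by
      apply div_le_div_of_nonneg_right _ ha.le
      have h5 : |y| * n ≤ |y| * n ^ 2 := mul_le_mul_of_nonneg_left hnn hy
      have h6 : |z| * n ≤ |z| * n ^ 2 := mul_le_mul_of_nonneg_left hnn hz
      rw [hM]
      linarith
    have h5 : M * n ^ 2 / a = M / a * n ^ 2 := by ring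
    have h6 : M / a * n ^ 2 ≤ C * n ^ 2 := mul_le_mul_of_nonneg_right hC3 (by positivity)
    linarith
  · intro h hh
    have key := relR h3 hh hI.left hI.right ha.ne' e n
    have s1 := G_sq hh hI.left (n + y)
    linear_combination G h α (n + y) * key - G h (-α) n * s1

/-- Cyclic fields: both signs among six arguments at every scale. -/
theorem conj_six (h3 : Module.finrank ℚ K = 3) {α β : K} (hI : Ind α β) {a y z : ℚ} (ha : 0 < a)
    (e : α ^ 2 = a * β + y * α + z) (hconj : ∀ (h : ℕ → ℤ) (n : ℚ), G h β n = G h α n)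
    {q : ℕ} (hq : ¬ IsSquare (q : ℤ)) :
    ∃ D : ℕ, 1 ≤ D ∧ ∃ C : ℚ, 1 ≤ C ∧ ∀ h : ℕ → ℤ, CM h → h q = -1 → ∀ T : ℚ, 1 ≤ T → ∀ ε : ℤ,
      ε = 1 ∨ ε = -1 → ∃ n : ℚ, (D : ℚ) * n ∈ ZZ ∧ G h α n = ε ∧
        ((T ≤ n ∧ n ≤ C * T) ∨ (T ^ 2 ≤ n ∧ n ≤ C * T ^ 2)) := by
  obtain ⟨D1, hD1, C1, hC1, hT⟩ := typeI h3 hI hq
  obtain ⟨D', hD', hdvd, C2, hC2, hR⟩ := stepQ h3 hI ha e hD1
  have hC1' : 0 < C1 := by linarith
  have hC2' : 0 < C2 := by linarith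
  obtain ⟨C, hC⟩ : ∃ C : ℚ, C = (C2 * C1 * C2 + 1) ^ 2 * C2 := ⟨_, rfl⟩
  have b0 : 1 ≤ C2 * C1 * C2 := by nlinarith [mul_le_mul hC2 hC1 (by norm_num) hC2'.le]
  have b1 : C1 * C2 ≤ C := by
    rw [hC]
    have h1 : C1 * C2 ≤ C2 * C1 * C2 := by nlinarith [mul_pos hC1' hC2']
    have h2 : C2 * C1 * C2 ≤ (C2 * C1 * C2 + 1) ^ 2 := by nlinarith
    have h4 : (C2 * C1 * C2 + 1) ^ 2 * 1 ≤ (C2 * C1 * C2 + 1) ^ 2 * C2 :=
      mul_le_mul_of_nonneg_left hC2 (by positivity)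
    linarith
  have b2 : C2 * (C1 * C2) ≤ C := by
    rw [hC]
    have h1 : C2 * (C1 * C2) = C2 * C1 * C2 := by ring
    have h2 : C2 * C1 * C2 ≤ (C2 * C1 * C2 + 1) ^ 2 := by nlinarith
    have h4 : (C2 * C1 * C2 + 1) ^ 2 * 1 ≤ (C2 * C1 * C2 + 1) ^ 2 * C2 :=
      mul_le_mul_of_nonneg_left hC2 (by positivity)
    linarith
  have b3 : C2 * (C1 * C2) ^ 2 ≤ C := by
    rw [hC]
    have h1 : (C1 * C2) ^ 2 ≤ (C2 * C1 * C2 + 1) ^ 2 := by
      apply pow_le_pow_left₀ (by positivity)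
      nlinarith [mul_pos hC1' hC2']
    nlinarith
  have hC0 : 1 ≤ C := by nlinarith [mul_le_mul hC1 hC2 (by norm_num) hC1'.le]
  refine ⟨D', hD', C, hC0, ?_⟩
  intro h hh hhq T hT' ε hε
  obtain ⟨n, n', m, m', ⟨l1, l2, l3, l4⟩, ⟨a1, a2⟩, ⟨b1', b2'⟩, ⟨c1, c2⟩, ⟨d1, d2⟩, hrel⟩ :=
    hT (C2 * T) (by nlinarith)
  obtain ⟨u1, u2, v1, v2, ⟨w1, w2⟩, ⟨x1, x2⟩, g1⟩ := hR T n' hT' l2 b1'
  obtain ⟨u3, u4, v3, v4, ⟨w3, w4⟩, ⟨x3, x4⟩, g2⟩ := hR T m' hT' l4 d1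
  have hT0 : 0 ≤ T := by linarith
  have hTC : T ≤ C2 * T := by nlinarith
  by_contra hcon
  push Not at hcon
  -- every admissible argument has the sign `-ε`
  have bad : ∀ k : ℚ, (D' : ℚ) * k ∈ ZZ → ((T ≤ k ∧ k ≤ C * T) ∨ (T ^ 2 ≤ k ∧ k ≤ C * T ^ 2)) →
      G h α k = -ε := by
    intro k hk hk2
    by_contra hne
    have hv : G h α k = 1 ∨ G h α k = -1 := H_vals hh (norm_ne (sub_ne_zero_of hI.left _))
    have hke : G h α k = ε := by
      rcases hv with h1 | h1 <;> rcases hε with h2 | h2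
      · rw [h1, h2]
      · exact absurd (by rw [h1, h2]; norm_num) hne
      · exact absurd (by rw [h1, h2]) hne
      · rw [h1, h2]
    obtain ⟨p1, p2⟩ := hcon k hk hke
    rcases hk2 with ⟨q1, q2⟩ | ⟨q1, q2⟩
    · exact absurd q2 (not_le.2 (p1 q1))
    · exact absurd q2 (not_le.2 (p2 q1))
  have up : ∀ k : ℚ, k ≤ C1 * (C2 * T) → k ≤ C * T := by
    intro k hk
    have := mul_le_mul_of_nonneg_right b1 hT0
    have e1 : C1 * (C2 * T) = C1 * C2 * T := by ring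
    linarith
  have up1 : ∀ k l : ℚ, k ≤ C2 * l → l ≤ C1 * (C2 * T) → k ≤ C * T := by
    intro k l hk hl
    have h1 : C2 * l ≤ C2 * (C1 * (C2 * T)) := mul_le_mul_of_nonneg_left hl hC2'.le
    have h2 := mul_le_mul_of_nonneg_right b2 hT0
    have e1 : C2 * (C1 * (C2 * T)) = C2 * (C1 * C2) * T := by ring
    linarith
  have up2 : ∀ k l : ℚ, 0 ≤ l → k ≤ C2 * l ^ 2 → l ≤ C1 * (C2 * T) → k ≤ C * T ^ 2 := by
    intro k l hl0 hk hl
    have h1 : l ^ 2 ≤ (C1 * (C2 * T)) ^ 2 := pow_le_pow_left₀ hl0 hl 2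
    have h2 : C2 * l ^ 2 ≤ C2 * (C1 * (C2 * T)) ^ 2 := mul_le_mul_of_nonneg_left h1 hC2'.le
    have h4 := mul_le_mul_of_nonneg_right b3 (sq_nonneg T)
    have e1 : C2 * (C1 * (C2 * T)) ^ 2 = C2 * (C1 * C2) ^ 2 * T ^ 2 := by ring
    linarith
  have k1 := bad n (mul_mem_ZZ_of_dvd hdvd l1) (Or.inl ⟨by linarith, up n a2⟩)
  have k2 := bad m (mul_mem_ZZ_of_dvd hdvd l3) (Or.inl ⟨by linarith, up m c2⟩)
  have k3 := bad u1 v1 (Or.inl ⟨w1, up1 u1 n' w2 b2'⟩)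
  have k4 := bad u2 v2 (Or.inr ⟨x1, up2 u2 n' (by linarith) x2 b2'⟩)
  have k5 := bad u3 v3 (Or.inl ⟨w3, up1 u3 m' w4 d2⟩)
  have k6 := bad u4 v4 (Or.inr ⟨x3, up2 u4 m' (by linarith) x4 d2⟩)
  have g3 : G h (-β) m' = G h (-α) m' := by
    have e1 := G_neg h3 h β (-m')
    have e2 := G_neg h3 h α (-m')
    rw [neg_neg] at e1 e2
    rw [e1, e2, hconj]
  have key := hrel h hh
  rw [g3, g1 h hh, g2 h hh, hconj, hconj, hconj, k1, k2, k3, k4, k5, k6, hhq] at key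
  have hε2 : ε * ε = 1 := by rcases hε with h | h <;> rw [h] <;> norm_num
  have ha2 := H_sq hh ha.ne'
  have h7 : H h a * ε = 0 := by
    have : 2 * (H h a * ε) = 0 := by
      linear_combination (-1) * key - 2 * (H h a * ε) * hε2
    linarith
  have h8 : (1 : ℤ) = 0 := by
    linear_combination H h a * ε * h7 - hε2 * (H h a * H h a) - ha2
  norm_num at h8

end Pool.Agent.Lib_helper3.CUBL
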