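import Mathlib
import Pool.Agent.Lib_helper3.CUBL.Six

/-!
Two generators of a cubic field: at every scale one of the two sequences takes both signs.
-/

namespace Pool.Agent.Lib_helper3.CUBL

open Pool.Agent.Lib_helper11.CUB

variable {K : Type*} [Field K] [NumberField K]

/-- At every scale `T` one of the two sequences takes both signs on the windows. -/
theorem pair_six (h3 : Module.finrank ℚ K = 3) {α β : K} (hI : Ind α β) {a y z : ℚ} (ha : 0 < a)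
    (e : α ^ 2 = a * β + y * α + z) {a' y' z' : ℚ} (ha' : 0 < a')
    (e' : β ^ 2 = a' * α + y' * β + z') {q q' : ℕ} (hq : ¬ IsSquare (q : ℤ))
    (hq' : ¬ IsSquare (q' : ℤ)) :
    ∃ D : ℕ, 1 ≤ D ∧ ∃ C : ℚ, 1 ≤ C ∧ ∀ h : ℕ → ℤ, CM h → h q ≠ h q' → ∀ T : ℚ, 1 ≤ T →
      ∀ ε ε' : ℤ, (ε = 1 ∨ ε = -1) → (ε' = 1 ∨ ε' = -1) → ∃ n : ℚ, (D : ℚ) * n ∈ ZZ ∧
        (G h α n = ε ∨ G h β n = ε') ∧
        ((T ≤ n ∧ n ≤ C * T) ∨ (T ^ 2 ≤ n ∧ n ≤ C * T ^ 2)) := by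
  obtain ⟨D1, hD1, C1, hC1, hT1⟩ := typeI h3 hI hq
  obtain ⟨D2, hD2, C2, hC2, hT2⟩ := typeI h3 hI hq'
  obtain ⟨D3, hD3, hdvd3, C3, hC3, hR3⟩ := stepQ h3 hI ha e (Nat.mul_pos hD1 hD2)
  obtain ⟨D4, hD4, hdvd4, C4, hC4, hR4⟩ := stepQ h3 hI.symm ha' e' (Nat.mul_pos hD1 hD2)
  have hd31 : D1 ∣ D3 * D4 := (dvd_mul_right D1 D2).trans (hdvd3.trans (dvd_mul_right _ _))
  have hd32 : D2 ∣ D3 * D4 := (dvd_mul_left D2 D1).trans (hdvd3.trans (dvd_mul_right _ _))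
  obtain ⟨B, hB⟩ : ∃ B : ℚ, B = C1 * C2 * (C3 * C4) := ⟨_, rfl⟩
  have h34 : 1 ≤ C3 * C4 := by nlinarith
  have h12 : 1 ≤ C1 * C2 := by nlinarith
  have hB1 : 1 ≤ B := by rw [hB]; nlinarith
  have hB0 : 0 < B := by linarith
  refine ⟨D3 * D4, Nat.mul_pos hD3 hD4, B ^ 3, one_le_pow₀ hB1, ?_⟩
  intro h hh hne T hT ε ε' hε hε'
  have hT0 : 0 ≤ T := by linarith
  by_contra hcon
  push Not at hcon
  have val : ∀ (u : K), u ∉ (⊥ : IntermediateField ℚ K) → ∀ (k : ℚ) (δ : ℤ), (δ = 1 ∨ δ = -1) →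
      G h u k ≠ δ → G h u k = -δ := by
    intro u hu k δ hδ hk
    have hv : G h u k = 1 ∨ G h u k = -1 := H_vals hh (norm_ne (sub_ne_zero_of hu _))
    rcases hv with h1 | h1 <;> rcases hδ with h2 | h2
    · exact absurd (by rw [h1, h2]) hk
    · rw [h1, h2]; norm_num
    · rw [h1, h2]
    · exact absurd (by rw [h1, h2]) hk
  have bad : ∀ k : ℚ, ((D3 * D4 : ℕ) : ℚ) * k ∈ ZZ →
      ((T ≤ k ∧ k ≤ B ^ 3 * T) ∨ (T ^ 2 ≤ k ∧ k ≤ B ^ 3 * T ^ 2)) →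
      G h α k = -ε ∧ G h β k = -ε' := by
    intro k hk hk2
    have hno : ¬ (G h α k = ε ∨ G h β k = ε') := by
      intro h1
      obtain ⟨p1, p2⟩ := hcon k hk h1
      rcases hk2 with ⟨q1, q2⟩ | ⟨q1, q2⟩
      · exact absurd q2 (not_le.2 (p1 q1))
      · exact absurd q2 (not_le.2 (p2 q1))
    rw [not_or] at hno
    exact ⟨val α hI.left k ε hε hno.1, val β hI.right k ε' hε' hno.2⟩
  have hB3 : B ≤ B ^ 3 := le_self_pow₀ hB1 (by norm_num)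
  have hB2 : B ^ 2 ≤ B ^ 3 := pow_le_pow_right₀ hB1 (by norm_num)
  have hε2 : ε * ε = 1 := by rcases hε with h | h <;> rw [h] <;> norm_num
  have hε2' : ε' * ε' = 1 := by rcases hε' with h | h <;> rw [h] <;> norm_num
  have ha2 := H_sq hh ha.ne'
  have ha2' := H_sq hh ha'.ne'
  have hC3B : C3 ≤ B := by
    rw [hB]
    have : C3 ≤ C3 * C4 := by nlinarith
    have : 1 * (C3 * C4) ≤ C1 * C2 * (C3 * C4) := mul_le_mul_of_nonneg_right h12 (by linarith)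
    linarith
  have hC4B : C4 ≤ B := by
    rw [hB]
    have : C4 ≤ C3 * C4 := by nlinarith
    have : 1 * (C3 * C4) ≤ C1 * C2 * (C3 * C4) := mul_le_mul_of_nonneg_right h12 (by linarith)
    linarith
  -- one relation
  have one : ∀ (q : ℕ) (D C : ℚ) (E : ℕ), (E : ℚ) = D → E ∣ D1 * D2 → 1 ≤ C → C ≤ C1 * C2 →
      (∀ T : ℚ, 1 ≤ T → ∃ n n' m m' : ℚ,
      (D * n ∈ ZZ ∧ D * n' ∈ ZZ ∧ D * m ∈ ZZ ∧ D * m' ∈ ZZ) ∧
      (T ≤ n ∧ n ≤ C * T) ∧ (T ≤ n' ∧ n' ≤ C * T) ∧ (T ≤ m ∧ m ≤ C * T) ∧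
      (T ≤ m' ∧ m' ≤ C * T) ∧
      ∀ h : ℕ → ℤ, CM h → G h α n * G h (-α) n' = h q * (G h β m * G h (-β) m')) →
      h q = H h a * H h a' * (ε * ε') := by
    intro q D C E hE hdE hC hC12 hTT
    obtain ⟨n, n', m, m', ⟨l1, l2, l3, l4⟩, ⟨a1, a2⟩, ⟨b1, b2⟩, ⟨c1, c2⟩, ⟨d1, d2⟩, hrel⟩ :=
      hTT (C3 * C4 * T) (by nlinarith)
    rw [← hE] at l1 l2 l3 l4
    have hCB : C * (C3 * C4 * T) ≤ B * T := by
      have : C * (C3 * C4) ≤ C1 * C2 * (C3 * C4) :=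
        mul_le_mul_of_nonneg_right hC12 (by linarith)
      have h5 := mul_le_mul_of_nonneg_right this hT0
      rw [hB]; linarith
    have hlow : T ≤ C3 * C4 * T := by nlinarith
    have hC3T : C3 * T ≤ C3 * C4 * T := by
      have : C3 * 1 ≤ C3 * C4 := mul_le_mul_of_nonneg_left hC4 (by linarith)
      have := mul_le_mul_of_nonneg_right this hT0
      linarith
    have hC4T : C4 * T ≤ C3 * C4 * T := by
      have : 1 * C4 ≤ C3 * C4 := mul_le_mul_of_nonneg_right hC3 (by linarith)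
      have := mul_le_mul_of_nonneg_right this hT0
      linarith
    have up : ∀ k : ℚ, k ≤ C * (C3 * C4 * T) → k ≤ B ^ 3 * T := by
      intro k hk
      have := mul_le_mul_of_nonneg_right hB3 hT0
      linarith
    have up1 : ∀ k l C' : ℚ, 0 ≤ l → k ≤ C' * l → l ≤ C * (C3 * C4 * T) → 0 ≤ C' → C' ≤ B →
        k ≤ B ^ 3 * T := by
      intro k l C' hl0 hk hl hC'0 hC'
      have h1 : C' * l ≤ B * (B * T) := mul_le_mul hC' (hl.trans hCB) hl0 hB0.le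
      have h2 := mul_le_mul_of_nonneg_right hB2 hT0
      have e1 : B * (B * T) = B ^ 2 * T := by ring
      linarith
    have up2 : ∀ k l C' : ℚ, 0 ≤ l → k ≤ C' * l ^ 2 → l ≤ C * (C3 * C4 * T) → 0 ≤ C' → C' ≤ B →
        k ≤ B ^ 3 * T ^ 2 := by
      intro k l C' hl0 hk hl hC'0 hC'
      have h1 : l ^ 2 ≤ (B * T) ^ 2 := pow_le_pow_left₀ hl0 (hl.trans hCB) 2
      have h2 : C' * l ^ 2 ≤ B * (B * T) ^ 2 := mul_le_mul hC' h1 (by positivity) hB0.le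
      have e1 : B * (B * T) ^ 2 = B ^ 3 * T ^ 2 := by ring
      linarith
    have hdE' : E ∣ D3 * D4 := hdE.trans (hdvd3.trans (dvd_mul_right _ _))
    obtain ⟨u1, u2, v1, v2, ⟨w1, w2⟩, ⟨x1, x2⟩, g1⟩ :=
      hR3 T n' hT (mul_mem_ZZ_of_dvd hdE l2) (by linarith)
    obtain ⟨u3, u4, v3, v4, ⟨w3, w4⟩, ⟨x3, x4⟩, g2⟩ :=
      hR4 T m' hT (mul_mem_ZZ_of_dvd hdE l4) (by linarith)
    have k1 := (bad n (mul_mem_ZZ_of_dvd hdE' l1) (Or.inl ⟨by linarith, up n a2⟩)).1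
    have k2 := (bad m (mul_mem_ZZ_of_dvd hdE' l3) (Or.inl ⟨by linarith, up m c2⟩)).2
    have k3 := (bad u1 (mul_mem_ZZ_of_dvd (dvd_mul_right _ _) v1)
      (Or.inl ⟨w1, up1 u1 n' C3 (by linarith) w2 b2 (by linarith) hC3B⟩)).1
    have k4 := (bad u2 (mul_mem_ZZ_of_dvd (dvd_mul_right _ _) v2)
      (Or.inr ⟨x1, up2 u2 n' C3 (by linarith) x2 b2 (by linarith) hC3B⟩)).2
    have k5 := (bad u3 (mul_mem_ZZ_of_dvd (dvd_mul_left _ _) v3)
      (Or.inl ⟨w3, up1 u3 m' C4 (by linarith) w4 d2 (by linarith) hC4B⟩)).2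
    have k6 := (bad u4 (mul_mem_ZZ_of_dvd (dvd_mul_left _ _) v4)
      (Or.inr ⟨x3, up2 u4 m' C4 (by linarith) x4 d2 (by linarith) hC4B⟩)).1
    have key := hrel h hh
    rw [g1 h hh, g2 h hh, k1, k2, k3, k4, k5, k6] at key
    -- `Ha ε ε ε' = hq Ha' ε' ε' ε`
    have r1 : H h a * ε' = h q * H h a' * ε := by
      linear_combination (-1) * key - H h a * ε' * hε2 + h q * H h a' * ε * hε2'
    linear_combination (-(H h a' * ε)) * r1 - h q * H h a' * H h a' * hε2 - h q * ha2'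
  have o1 := one q D1 C1 D1 rfl (dvd_mul_right _ _) hC1 (by nlinarith) hT1
  have o2 := one q' D2 C2 D2 rfl (dvd_mul_left _ _) hC2 (by nlinarith) hT2
  exact hne (by rw [o1, o2])

end Pool.Agent.Lib_helper3.CUBL
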