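import Mathlib
import Pool.Agent.Lib_helper11.CUB.Final
import Pool.Agent.Lib_helper3.CUBL.Count
import Pool.Agent.Lib_helper3.CUBL.Pair

/-!
Both signs in short intervals and at least `c log x` times, in terms of minimal polynomials.
-/

namespace Pool.Agent.Lib_helper3.CUBL

open Polynomial Pool.Agent.Lib_helper11.CUB

variable {K : Type*} [Field K] [NumberField K]

/-- From an argument in `(1/D)ℤ` to an integer argument of the minimal polynomial of `v u`. -/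
theorem to_nat (h3 : Module.finrank ℚ K = 3) {h : ℕ → ℤ} (hh : CM h) {u : K}
    (hu : u ∉ (⊥ : IntermediateField ℚ K)) (hint : IsIntegral ℤ u) {v D : ℕ} (hv : 1 ≤ v)
    (hD : D ∣ v) {T : ℕ} (hT : 1 ≤ T) {C : ℚ} {C' : ℕ} (hC : v * C ≤ C') {s : ℤ} {k : ℚ}
    (hk : (D : ℚ) * k ∈ ZZ) (hs : G h u k = h v * s)
    (hw : ((T : ℚ) ≤ k ∧ k ≤ C * T) ∨ ((T : ℚ) ^ 2 ≤ k ∧ k ≤ C * (T : ℚ) ^ 2)) :
    ∃ n : ℕ, h ((minpoly ℤ ((v : K) * u)).eval (n : ℤ)).natAbs = s ∧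
      ((T ≤ n ∧ n ≤ C' * T) ∨ (T ^ 2 ≤ n ∧ n ≤ C' * T ^ 2)) := by
  obtain ⟨m, hm⟩ := mem_ZZ.1 (mul_mem_ZZ_of_dvd hD hk)
  have hvq : (1 : ℚ) ≤ v := by exact_mod_cast hv
  have hTq : (1 : ℚ) ≤ T := by exact_mod_cast hT
  have hk1 : 1 ≤ k := by
    rcases hw with ⟨h1, -⟩ | ⟨h1, -⟩
    · linarith
    · nlinarith
  have hm0 : 0 ≤ m := by
    have : (0 : ℚ) ≤ m := by rw [hm]; positivity
    exact_mod_cast this
  obtain ⟨n, rfl⟩ := Int.eq_ofNat_of_zero_le hm0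
  have hn : (n : ℚ) = v * k := by exact_mod_cast hm
  have conv : ∀ S : ℕ, (S : ℚ) ≤ k → k ≤ C * S → S ≤ n ∧ n ≤ C' * S := by
    intro S h1 h2
    have hS0 : (0 : ℚ) ≤ S := Nat.cast_nonneg S
    constructor
    · have : (S : ℚ) ≤ n := by rw [hn]; nlinarith
      exact_mod_cast this
    · have : (n : ℚ) ≤ ((C' * S : ℕ) : ℚ) := by
        rw [hn]; push_cast
        have h4 : (v : ℚ) * k ≤ v * (C * S) := mul_le_mul_of_nonneg_left h2 (by linarith)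
        have h5 : (v : ℚ) * C * S ≤ C' * S := mul_le_mul_of_nonneg_right hC hS0
        linarith
      exact_mod_cast this
  refine ⟨n, ?_, ?_⟩
  · rw [G_scaled h3 hh hu hint hv hm, hs, ← mul_assoc, hh.sq hv, one_mul]
  · rcases hw with ⟨h1, h2⟩ | ⟨h1, h2⟩
    · exact Or.inl (conv T h1 h2)
    · refine Or.inr (conv (T ^ 2) ?_ ?_)
      · push_cast; exact h1
      · push_cast; exact h2

/-- Cyclic cubic fields: every integer `θ ∉ ℚ`. -/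
theorem cyclic_count [IsGalois ℚ K] (h3 : Module.finrank ℚ K = 3) {θ : K}
    (hint : IsIntegral ℤ θ) (hθ : θ ∉ (⊥ : IntermediateField ℚ K)) {p : ℕ} (hp : p.Prime) :
    ∃ m : ℕ, 1 ≤ m ∧ ∀ v : ℕ, 1 ≤ v → m ∣ v → ∃ C : ℕ, ∀ h : ℕ → ℤ, CM h → h p = -1 →
      ∀ s : ℤ, (s = 1 ∨ s = -1) → ∀ x : ℕ, 1 ≤ x →
        (∃ n : ℕ, x ≤ n ∧ n ≤ C * x ^ 2 ∧
          h ((minpoly ℤ ((v : K) * θ)).eval (n : ℤ)).natAbs = s) ∧
        Real.log x / (4 * Real.log (C + 2)) - 1 ≤ (((Finset.Icc 1 x).filter (fun n : ℕ =>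
          h ((minpoly ℤ ((v : K) * θ)).eval (n : ℤ)).natAbs = s)).card : ℝ) := by
  obtain ⟨β, a, y, z, ha, e, hI, hconj⟩ := exists_conj h3 hθ
  obtain ⟨D, hD, C, hC, hmain⟩ := conj_six h3 hI ha e hconj (not_isSquare_prime hp)
  refine ⟨D, hD, fun v hv hDv => ?_⟩
  obtain ⟨C', hC'⟩ := exists_nat_ge ((v : ℚ) * C)
  refine ⟨C', fun h hh hhp s hs => ?_⟩
  have hvs : h v * s = 1 ∨ h v * s = -1 := by
    rcases hh.values v hv with g | g <;> rcases hs with g' | g' <;> rw [g, g'] <;> norm_num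
  have key : ∀ T : ℕ, 1 ≤ T → ∃ n : ℕ,
      h ((minpoly ℤ ((v : K) * θ)).eval (n : ℤ)).natAbs = s ∧
      ((T ≤ n ∧ n ≤ C' * T) ∨ (T ^ 2 ≤ n ∧ n ≤ C' * T ^ 2)) := by
    intro T hT
    obtain ⟨k, hk, hG, hw⟩ := hmain h hh hhp T (by exact_mod_cast hT) (h v * s) hvs
    exact to_nat h3 hh hθ hint hv hDv hT hC' hk hG hw
  intro x hx
  refine ⟨?_, count_real key x hx⟩
  obtain ⟨n, hn, hw⟩ := key x hx
  refine ⟨n, ?_, ?_, hn⟩
  · rcases hw with ⟨h1, -⟩ | ⟨h1, -⟩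
    · exact h1
    · nlinarith
  · rcases hw with ⟨-, h1⟩ | ⟨-, h1⟩
    · refine h1.trans ?_
      apply Nat.mul_le_mul_left
      nlinarith
    · exact h1

end Pool.Agent.Lib_helper3.CUBL
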